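import Mathlib
import Pool.Agent.HD3.Final

/-!
# The covering number of 3-space: every convex body of Euclidean 3-space is covered by 8
translates of its interior, and 8 is best possible
-/

set_option autoImplicit false

open Set

namespace Pool.Agent.Results.MP_eba1ef_gt.AllBodies3D

/-- `c_3 = 8`: every compact convex set with nonempty interior in Euclidean 3-space is covered by
at most 8 translates of its interior, and some such body needs at least 8 translates. -/
theorem result :
    (∀ K : Set (EuclideanSpace ℝ (Fin 3)),
      Convex ℝ K → IsCompact K → (interior K).Nonempty →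
      ∃ T : Finset (EuclideanSpace ℝ (Fin 3)),
        T.card ≤ 2 ^ 3 ∧
        K ⊆ ⋃ t ∈ T, (fun x => t + x) '' interior K) ∧
    (∃ K : Set (EuclideanSpace ℝ (Fin 3)),
      Convex ℝ K ∧ IsCompact K ∧ (interior K).Nonempty ∧
      ∀ T : Finset (EuclideanSpace ℝ (Fin 3)),
        K ⊆ ⋃ t ∈ T, (fun x => t + x) '' interior K → 2 ^ 3 ≤ T.card) :=
  ⟨fun K hc hK hi => Pool.Agent.HD3.cover_three K hc hK hi, Pool.Agent.HD3.Lower.cube_lower 3⟩

end Pool.Agent.Results.MP_eba1ef_gt.AllBodies3D
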