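import Mathlib
import Pool.Agent.FracH.Explicit

/-!
# A covering bound of the order `2 ^ d * d * log d` for every convex body in every dimension
-/

set_option autoImplicit false

namespace Pool.Agent.Results.MP_eba1ef_gt.AllBodiesBound

/-- Every convex body `K` in `ℝ ^ d`, `d ≥ 3`, is covered by at most
`2 ^ d * (d log d + d log log d + 5 d)` translates of its interior.  There is no symmetry
assumption on `K`. -/
theorem result (d : ℕ) (hd : 3 ≤ d) (K : Set (EuclideanSpace ℝ (Fin d)))
    (hK : Convex ℝ K) (hc : IsCompact K) (hne : (interior K).Nonempty) :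
    ∃ T : Finset (EuclideanSpace ℝ (Fin d)),
      (T.card : ℝ) ≤ 2 ^ d * (d * Real.log d + d * Real.log (Real.log d) + 5 * d) ∧
      K ⊆ ⋃ t ∈ T, (fun x => t + x) '' interior K := by
  have h := Pool.Agent.FracH.explicit (K := K) (by simpa using hd) hK hc hne
  simpa using h

end Pool.Agent.Results.MP_eba1ef_gt.AllBodiesBound
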