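import Pool.Agent.MFH.Large
import Pool.Agent.MFH.P_GAM
import Pool.Agent.MFH.P_LIM
import Pool.Agent.MFH.P_SQM
import Pool.Agent.MFH.P_EQU
import Pool.Agent.MFH.P_ATM
import Pool.Agent.MFH.P_FNV
import Pool.Agent.MFH.P_TIL
import Pool.Agent.MFH.P_COV
import Pool.Agent.MFH.P_RAT
import Pool.Agent.MFH.P_PLB
import Pool.Agent.MFH.P_AFF
import Pool.Agent.MFH.P_NOR
import Pool.Agent.MFH.P_OPN
import Pool.Agent.MFH.P_BLA
import Pool.Agent.MFH.P_CAP
import Pool.Agent.MFH.P_HOM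
import Pool.Agent.MFH.P_SLB
import Pool.Agent.MFH.P_TWO
import Pool.Agent.MFH.P_FAC
import Pool.Agent.MFH.P_PAR

/-!
# The multifold form of Hadwiger's covering conjecture, in all dimensions
-/

set_option autoImplicit false

open Set

namespace Pool.Agent.Results.MP_eba1ef_gt.MultifoldHadwiger

/-- Convex bodies: compact convex sets with nonempty interior. -/
def IsBody {d : ℕ} (K : Set (EuclideanSpace ℝ (Fin d))) : Prop :=
  Convex ℝ K ∧ IsCompact K ∧ (interior K).Nonempty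

/-- Some `M` translates `t j + interior K` of the interior of `K` cover `K` `N`-fold: every point
of `K` lies in at least `N` of them. -/
def NFold {d : ℕ} (K : Set (EuclideanSpace ℝ (Fin d))) (N M : ℕ) : Prop :=
  ∃ t : Fin M → EuclideanSpace ℝ (Fin d),
    ∀ x ∈ K, N ≤ {j : Fin M | x ∈ (fun y => t j + y) '' interior K}.ncard

/-- The translates `t j + interior K`, taken with the weights `w j ≥ 0`, cover every point of `K`
with total weight at least one. -/
def FracCover {d : ℕ} (K : Set (EuclideanSpace ℝ (Fin d))) {M : ℕ}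
    (t : Fin M → EuclideanSpace ℝ (Fin d)) (w : Fin M → ℝ) : Prop :=
  (∀ j, 0 ≤ w j) ∧
    ∀ x ∈ K, 1 ≤ ∑ j, ((fun y => t j + y) '' interior K).indicator (fun _ => w j) x

/-- Parallelotopes. -/
def IsParallelotope {d : ℕ} (P : Set (EuclideanSpace ℝ (Fin d))) : Prop :=
  ∃ (x₀ : EuclideanSpace ℝ (Fin d)) (v : Fin d → EuclideanSpace ℝ (Fin d)),
    LinearIndependent ℝ v ∧
      P = {x | ∃ c : Fin d → ℝ, (∀ i, 0 ≤ c i ∧ c i ≤ 1) ∧ x = x₀ + ∑ i, c i • v i}

/-- `K` lies between a parallelotope `P` and a translate of `(1 + δ) • P`. -/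
def NearParallelotope {d : ℕ} (δ : ℝ) (K : Set (EuclideanSpace ℝ (Fin d))) : Prop :=
  ∃ (P : Set (EuclideanSpace ℝ (Fin d))) (a : EuclideanSpace ℝ (Fin d)),
    IsParallelotope P ∧ P ⊆ K ∧ K ⊆ (fun y => a + (1 + δ) • y) '' P

theorem mem_translate {d : ℕ} (K : Set (EuclideanSpace ℝ (Fin d)))
    (t x : EuclideanSpace ℝ (Fin d)) :
    x ∈ (fun y => t + y) '' interior K ↔ x - t ∈ interior K := by
  constructor
  · rintro ⟨y, hy, rfl⟩
    simpa using hy
  · intro h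
    exact ⟨x - t, h, by simp⟩

theorem ncard_eq {d M : ℕ} (K : Set (EuclideanSpace ℝ (Fin d)))
    (t : Fin M → EuclideanSpace ℝ (Fin d)) (x : EuclideanSpace ℝ (Fin d)) :
    {j : Fin M | x ∈ (fun y => t j + y) '' interior K}.ncard = Pool.Agent.MFH.cnt K t x := by
  classical
  unfold Pool.Agent.MFH.cnt
  rw [Set.ncard_eq_toFinset_card']
  congr 1
  ext j
  simp only [Set.mem_toFinset, Set.mem_ofPred_eq, Finset.mem_filter, Finset.mem_univ, true_and]
  exact mem_translate K (t j) x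

theorem nfold_of {d N M : ℕ} {K : Set (EuclideanSpace ℝ (Fin d))}
    (h : Pool.Agent.MFH.Multi K N M) : NFold K N M := by
  obtain ⟨t, ht⟩ := h
  refine ⟨t, fun x hx => ?_⟩
  rw [ncard_eq]
  exact ht x hx

theorem multi_of {d N M : ℕ} {K : Set (EuclideanSpace ℝ (Fin d))}
    (h : NFold K N M) : Pool.Agent.MFH.Multi K N M := by
  obtain ⟨t, ht⟩ := h
  refine ⟨t, fun x hx => ?_⟩
  rw [← ncard_eq]
  exact ht x hx

theorem sum_eq {d M : ℕ} (K : Set (EuclideanSpace ℝ (Fin d)))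
    (t : Fin M → EuclideanSpace ℝ (Fin d)) (w : Fin M → ℝ) (x : EuclideanSpace ℝ (Fin d)) :
    ∑ j, ((fun y => t j + y) '' interior K).indicator (fun _ => w j) x =
      ∑ j, (open Classical in if x - t j ∈ interior K then w j else 0) := by
  classical
  refine Finset.sum_congr rfl (fun j _ => ?_)
  rw [Set.indicator_apply]
  by_cases h : x - t j ∈ interior K
  · rw [if_pos ((mem_translate K (t j) x).mpr h), if_pos h]
  · rw [if_neg (fun h' => h ((mem_translate K (t j) x).mp h')), if_neg h]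

theorem fracLT_iff {d : ℕ} (K : Set (EuclideanSpace ℝ (Fin d))) (W : ℝ) :
    Pool.Agent.MFH.FracLT K W ↔ ∃ (M : ℕ) (t : Fin M → EuclideanSpace ℝ (Fin d))
      (w : Fin M → ℝ), FracCover K t w ∧ ∑ j, w j < W := by
  constructor
  · rintro ⟨n, t, w, h1, h2, h3⟩
    refine ⟨n, t, w, ⟨h1, fun x hx => ?_⟩, h3⟩
    rw [sum_eq]
    exact h2 x hx
  · rintro ⟨n, t, w, ⟨h1, h2⟩, h3⟩
    refine ⟨n, t, w, h1, fun x hx => ?_, h3⟩
    rw [← sum_eq]
    exact h2 x hx

open Pool.Agent.MFH in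
theorem hEQU : T_EQU := p_EQU p_SQM

open Pool.Agent.MFH in
theorem hTIL : T_TIL := p_TIL hEQU (p_FNV (p_ATM hEQU))

open Pool.Agent.MFH in
theorem hPAR : T_PAR := p_PAR (p_TWO p_CAP p_HOM p_SLB) p_FAC

open Pool.Agent.MFH in
/-- The multifold form of Hadwiger's covering conjecture, for all large multiplicities; the
stability of the extremal case; and the characterization of the extremal bodies. -/
theorem result (d : ℕ) :
    (∃ N₀ : ℕ, ∀ N : ℕ, N₀ ≤ N → ∀ K : Set (EuclideanSpace ℝ (Fin d)), IsBody K →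
      NFold K N (N * 2 ^ d)) ∧
    (∀ δ : ℝ, 0 < δ → ∃ (η : ℝ) (N₁ : ℕ), 0 < η ∧ ∀ N : ℕ, N₁ ≤ N →
      ∀ K : Set (EuclideanSpace ℝ (Fin d)), IsBody K → ¬ NearParallelotope δ K →
        ∃ M : ℕ, (M : ℝ) ≤ (1 - η) * (N * 2 ^ d) ∧ NFold K N M) ∧
    (∀ K : Set (EuclideanSpace ℝ (Fin d)), IsBody K → List.TFAE [
      IsParallelotope K,
      ∀ N M : ℕ, NFold K N M → N * 2 ^ d ≤ M,
      ∀ (M : ℕ) (t : Fin M → EuclideanSpace ℝ (Fin d)) (w : Fin M → ℝ),
        FracCover K t w → 2 ^ d ≤ ∑ j, w j]) := by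
  have hLIM : T_LIM := p_LIM p_GAM
  refine ⟨?_, fun δ hδ => ?_, fun K hK => ?_⟩
  · obtain ⟨N₀, h⟩ := large hLIM hTIL p_COV p_RAT p_BLA p_OPN p_NOR p_AFF d
    exact ⟨N₀, fun N hN K hK => nfold_of (h N hN K ⟨hK.1, hK.2.1, hK.2.2⟩)⟩
  · obtain ⟨η, N₁, hη, h⟩ := stab_large hLIM hTIL hPAR p_RAT p_BLA p_OPN p_NOR p_AFF d δ hδ
    refine ⟨η, N₁, hη, fun N hN K hK hn => ?_⟩
    obtain ⟨M, hM, hM'⟩ := h N hN K ⟨hK.1, hK.2.1, hK.2.2⟩ hn
    exact ⟨M, hM, nfold_of hM'⟩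
  · have hB : Body K := ⟨hK.1, hK.2.1, hK.2.2⟩
    have h12 : IsParallelotope K → ∀ N M : ℕ, NFold K N M → N * 2 ^ d ≤ M :=
      fun hP N M h => p_PLB d K N M hP (multi_of h)
    have h21 : (∀ N M : ℕ, NFold K N M → N * 2 ^ d ≤ M) → IsParallelotope K := by
      intro hall
      by_contra hP
      obtain ⟨N, hN, hM⟩ := strict hLIM hTIL hPAR p_RAT hB hP
      have h1 := hall N _ (nfold_of hM)
      have h2 : 0 < N * 2 ^ d := Nat.mul_pos hN (by positivity)
      omega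
    have h13 : IsParallelotope K → ∀ (M : ℕ) (t : Fin M → EuclideanSpace ℝ (Fin d))
        (w : Fin M → ℝ), FracCover K t w → 2 ^ d ≤ ∑ j, w j := by
      intro hP M t w hc
      by_contra hlt
      exact not_frac_of_para p_RAT p_PLB hP ((fracLT_iff K _).mpr ⟨M, t, w, hc, not_le.mp hlt⟩)
    have h31 : (∀ (M : ℕ) (t : Fin M → EuclideanSpace ℝ (Fin d))
        (w : Fin M → ℝ), FracCover K t w → 2 ^ d ≤ ∑ j, w j) → IsParallelotope K := by
      intro hall
      refine para_of_not_frac hLIM hTIL hPAR hB (fun hF => ?_)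
      obtain ⟨M, t, w, hc, hlt⟩ := (fracLT_iff K _).mp hF
      exact absurd (hall M t w hc) (not_le.mpr hlt)
    tfae_have 1 → 2 := h12
    tfae_have 2 → 1 := h21
    tfae_have 1 → 3 := h13
    tfae_have 3 → 1 := h31
    tfae_finish

end Pool.Agent.Results.MP_eba1ef_gt.MultifoldHadwiger
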