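import Mathlib
import Pool.Agent.Ovl.UFinal

/-!
# Hadwiger's covering problem for convex bodies which are wide along a projection
-/

set_option autoImplicit false

open MeasureTheory Set

namespace Pool.Agent.Results.MP_eba1ef_gt.WideBodies

/-- Let `d ≥ 10 ^ 4` and let `K` be a convex body in `ℝ ^ d` with `0` in its interior.  Let `P` be a
linear projection with `P K ⊆ K` and corank at most `d / 600`.  Suppose that in every direction
`u` the support function of `K` is at least `2500 log d` times the root of the second moment of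
`⟨u, P Y⟩`, where `Y` is a random point of `K` with the uniform distribution.  Then `K` is covered by
at most `2 ^ d` translates of its interior. -/
theorem result (d : ℕ) (hd : 10 ^ 4 ≤ d) (K : Set (EuclideanSpace ℝ (Fin d)))
    (hK : Convex ℝ K) (hc : IsCompact K) (h0 : 0 ∈ interior K)
    (P : EuclideanSpace ℝ (Fin d) →ₗ[ℝ] EuclideanSpace ℝ (Fin d)) (hP : ∀ x, P (P x) = P x)
    (hPK : ∀ x ∈ K, P x ∈ K) (hr : 600 * Module.finrank ℝ (LinearMap.ker P) ≤ d)
    (hw : ∀ u : EuclideanSpace ℝ (Fin d), ∃ k ∈ K, 0 ≤ inner ℝ u k ∧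
      (2500 * Real.log d) ^ 2 * ∫ y in K, (inner ℝ u (P y)) ^ 2 ≤
        volume.real K * (inner ℝ u k) ^ 2) :
    ∃ T : Finset (EuclideanSpace ℝ (Fin d)), T.card ≤ 2 ^ d ∧
      K ⊆ ⋃ t ∈ T, (fun x => t + x) '' interior K := by
  obtain ⟨T, hT, hT2⟩ :=
    Pool.Agent.Ovl.projections Pool.Agent.Ovl.u_BLQ d hd K hK hc h0 P hP hPK hr hw
  exact ⟨T, by exact_mod_cast hT, hT2⟩

end Pool.Agent.Results.MP_eba1ef_gt.WideBodies
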